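import Pool.Agent.W34.GB.Stm
import Pool.Agent.H336R2.HD.A5

/-!
# GZ-Z3: the final measure
-/

open Polynomial Pool.Agent.H337R2 Filter Topology MeasureTheory

namespace Pool.Agent.W216.GZ

open Pool.Agent.W34.GB

noncomputable section

/-- the contradiction for one prime `h` -/
theorem contra {h σ Q : ℕ} {w u v : ℚ} (hh : 0 < h) (hQ : UInt Q w u v) (hD : DET h σ w u v ≠ 0)
    (hA : |((DET h σ w u v : ℚ) : ℝ)| ≤
      Real.exp (-(9 * (h : ℝ) ^ 2 * Real.log h) - 333 / 20 * (h : ℝ) ^ 2))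
    (hP : ∃ (S : Finset ℕ) (B : ℕ → ℝ), (∀ p ∈ S, p.Prime ∧ 0 < B p) ∧
      (∀ p ∈ S, ((padicNorm p ((Q : ℚ) ^ (3 * h) * DET h σ w u v) : ℚ) : ℝ) ≤ B p) ∧
      (∀ p, p.Prime → p ∉ S → padicNorm p ((Q : ℚ) ^ (3 * h) * DET h σ w u v) ≤ 1) ∧
      ∑ p ∈ S, Real.log (B p) ≤ 9 * (h : ℝ) ^ 2 * Real.log h + 83 / 5 * (h : ℝ) ^ 2)
    (hlog : 500 * Real.log Q / 8 ≤ h) : False := by
  obtain ⟨S, B, hS1, hS2, hS3, hS4⟩ := hP
  have hQ0 : 0 < Q := hQ.1
  have hQr : (0 : ℝ) < Q := by exact_mod_cast hQ0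
  have hhr : (0 : ℝ) < h := by exact_mod_cast hh
  obtain ⟨z, hz⟩ : ∃ z : ℚ, z = ((Q : ℕ) : ℚ) ^ (3 * h) * DET h σ w u v := ⟨_, rfl⟩
  have hz0 : z ≠ 0 := by
    rw [hz]
    exact mul_ne_zero (pow_ne_zero _ (by exact_mod_cast hQ0.ne')) hD
  have hpf := Pool.Agent.H336R2.HD.A5_prod_formula z hz0 S (fun p hp => (hS1 p hp).1) B
    (fun p hp => by rw [hz]; exact hS2 p hp) (fun p hp hpS => by rw [hz]; exact hS3 p hp hpS)
  have hprodpos : 0 < ∏ p ∈ S, B p := Finset.prod_pos fun p hp => (hS1 p hp).2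
  have hzabs : 0 < |(z : ℝ)| := abs_pos.2 (by exact_mod_cast hz0)
  have hl := Real.log_nonneg hpf
  rw [Real.log_mul hzabs.ne' hprodpos.ne', Real.log_prod (fun p hp => (hS1 p hp).2.ne')] at hl
  have hDpos : 0 < |((DET h σ w u v : ℚ) : ℝ)| := abs_pos.2 (by exact_mod_cast hD)
  have hzlog : Real.log |(z : ℝ)| = (3 * h : ℝ) * Real.log Q +
      Real.log |((DET h σ w u v : ℚ) : ℝ)| := by
    rw [hz]
    push_cast
    rw [abs_mul, Real.log_mul (by positivity) hDpos.ne', abs_of_pos (by positivity), Real.log_pow]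
    push_cast
    ring
  have hDlog : Real.log |((DET h σ w u v : ℚ) : ℝ)| ≤
      -(9 * (h : ℝ) ^ 2 * Real.log h) - 333 / 20 * (h : ℝ) ^ 2 := by
    have := Real.log_le_log hDpos hA
    rwa [Real.log_exp] at this
  have hfin : (3 * h : ℝ) * Real.log Q ≤ 3 * h * (8 * h / 500) := by
    apply mul_le_mul_of_nonneg_left _ (by positivity)
    linarith
  have hn2 : (0 : ℝ) < (h : ℝ) ^ 2 := by positivity
  rw [hzlog] at hl
  nlinarith

lemma norm_div_le {p q : ℕ} [Fact p.Prime] (hq : ¬ p ∣ q) (a : ℤ) :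
    padicNorm p ((a : ℚ) / q) ≤ 1 := by
  rw [padicNorm.div, (padicNorm.nat_eq_one_iff q).2 hq, div_one]
  exact padicNorm.of_int a

theorem ZM_of (hA : AMain) (hP : PMain) (hN : NV) (hZ : Z2s) : ZM := by
  intro σ w hσ
  obtain ⟨D0, hD0, hA1⟩ := hA σ w hσ
  obtain ⟨NA, hA2⟩ := eventually_atTop.1 hA1
  obtain ⟨NP, hP2⟩ := eventually_atTop.1 (hP σ hσ)
  obtain ⟨h0, hN2⟩ := hN σ w hσ
  obtain ⟨a0, ha0, ha0'⟩ : ∃ a0 : ℕ, (a0 = 1 ∨ a0 = 3) ∧
      (∀ h : ℕ, h % 4 = a0 → if w = -3 then h % 4 ≠ σ else h % 4 = σ) := by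
    by_cases hw : w = -3
    · rcases hσ with rfl | rfl
      · exact ⟨3, Or.inr rfl, fun h hh => by rw [if_pos hw]; omega⟩
      · exact ⟨1, Or.inl rfl, fun h hh => by rw [if_pos hw]; omega⟩
    · exact ⟨σ, hσ, fun h hh => by rw [if_neg hw]; exact hh⟩
  obtain ⟨x0, hx0⟩ := hZ a0 ha0
  set N : ℕ := NA + NP + h0 + 1 with hNdef
  -- the large number
  obtain ⟨m0, hm0⟩ : ∃ m0 : ℕ, Real.exp (|x0| + 8 * N) ≤ m0 :=
    ⟨⌈Real.exp (|x0| + 8 * N)⌉₊, Nat.le_ceil _⟩
  have hm0pos : (0 : ℝ) < m0 := (Real.exp_pos _).trans_le hm0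
  have hm0N : 0 < m0 := by exact_mod_cast hm0pos
  have hlm0 : |x0| + 8 * N ≤ Real.log m0 := by
    have := Real.log_le_log (Real.exp_pos _) hm0
    rwa [Real.log_exp] at this
  have hd : 0 < w.den := w.den_pos
  have hdr : (1 : ℝ) ≤ w.den := by exact_mod_cast hd
  have hld : 0 ≤ Real.log w.den := Real.log_nonneg hdr
  -- constants
  set c1 : ℝ := Real.log w.den + Real.log m0 with hc1
  have hc1pos : 0 ≤ c1 := by
    have h1 : 0 ≤ |x0| := abs_nonneg _
    have h2 : (0 : ℝ) ≤ N := Nat.cast_nonneg _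
    rw [hc1]
    linarith
  have hlog2 : 0 < Real.log 2 := Real.log_pos (by norm_num)
  set c3 : ℝ := 500 * (1 + c1 / Real.log 2) with hc3
  have hc3pos : 1 ≤ c3 := by
    have : 0 ≤ c1 / Real.log 2 := div_nonneg hc1pos hlog2.le
    rw [hc3]; linarith
  have hll2 : 0 < Real.log (1 + Real.log 2) := Real.log_pos (by linarith)
  set c4 : ℝ := 1 + Real.log c3 / Real.log (1 + Real.log 2) with hc4
  have hlc3 : 0 ≤ Real.log c3 := Real.log_nonneg hc3pos
  have hc4pos : 0 < c4 := by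
    have : 0 ≤ Real.log c3 / Real.log (1 + Real.log 2) := div_nonneg hlc3 hll2.le
    rw [hc4]; linarith
  refine ⟨D0 * (c3 * c4), by positivity, fun q hq a b => ?_⟩
  by_contra hcon
  push Not at hcon
  have hq0 : 0 < q := by omega
  have hqr : (2 : ℝ) ≤ q := by exact_mod_cast hq
  have hlq : Real.log 2 ≤ Real.log q := Real.log_le_log (by norm_num) hqr
  have hlq0 : 0 < Real.log q := hlog2.trans_le hlq
  have hllq : Real.log (1 + Real.log 2) ≤ Real.log (1 + Real.log q) :=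
    Real.log_le_log (by linarith) (by linarith)
  -- the denominator
  set Q : ℕ := q * w.den * m0 with hQ
  have hQ0 : 0 < Q := by positivity
  have hlQ : Real.log Q = Real.log q + c1 := by
    rw [hQ, hc1]
    push_cast
    rw [Real.log_mul (by positivity) (by positivity), Real.log_mul (by positivity) (by positivity)]
    ring
  have hlQ0 : 0 ≤ Real.log Q := by rw [hlQ]; linarith
  have hlQm : |x0| + 8 * N ≤ Real.log Q := by
    rw [hlQ, hc1]; linarith
  obtain ⟨h, hhp, hhm, hh1, hh2, hh3⟩ := hx0 (500 * Real.log Q)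
    (by
      have h1 := le_abs_self x0
      have h2 : (0 : ℝ) ≤ N := Nat.cast_nonneg _
      linarith) Q hQ0 (by linarith)
  have hhN : N ≤ h := by
    have h1 : (N : ℝ) ≤ h := by
      have h2 : 0 ≤ |x0| := abs_nonneg _
      linarith
    exact_mod_cast h1
  have hh0 : 0 < h := hhp.pos
  have hhr : (1 : ℝ) ≤ h := by exact_mod_cast hh0
  haveI : Fact h.Prime := ⟨hhp⟩
  have hhq : ¬ h ∣ q := fun hd => hh3 (by
    rw [hQ, mul_assoc]
    exact Dvd.dvd.mul_right hd _)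
  -- size of `h`
  have hhc : (h : ℝ) ≤ c3 * Real.log q := by
    refine hh2.trans ?_
    rw [hlQ, hc3]
    have : c1 ≤ c1 / Real.log 2 * Real.log q := by
      rw [div_mul_eq_mul_div, le_div_iff₀ hlog2]
      exact mul_le_mul_of_nonneg_left hlq hc1pos
    nlinarith
  have hlh : Real.log h ≤ c4 * Real.log (1 + Real.log q) := by
    have h1 : (h : ℝ) ≤ c3 * (1 + Real.log q) := by nlinarith
    have h2 := Real.log_le_log (by linarith) h1
    rw [Real.log_mul (by positivity) (by positivity)] at h2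
    have h3 : Real.log c3 ≤ Real.log c3 / Real.log (1 + Real.log 2) *
        Real.log (1 + Real.log q) := by
      rw [div_mul_eq_mul_div, le_div_iff₀ hll2]
      exact mul_le_mul_of_nonneg_left hllq hlc3
    rw [hc4]
    linarith
  have hlh0 : 0 ≤ Real.log h := Real.log_nonneg hhr
  have hsize : D0 * h * Real.log h ≤
      D0 * (c3 * c4) * Real.log q * Real.log (1 + Real.log q) := by
    calc D0 * h * Real.log h = D0 * (h * Real.log h) := by ring
      _ ≤ D0 * ((c3 * Real.log q) * (c4 * Real.log (1 + Real.log q))) := by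
          gcongr
      _ = _ := by ring
  have hexp : Real.exp (-(D0 * (c3 * c4) * Real.log q * Real.log (1 + Real.log q))) ≤
      Real.exp (-(D0 * h * Real.log h)) := Real.exp_le_exp.2 (neg_le_neg hsize)
  -- the numbers
  obtain ⟨hcx, hcy⟩ := max_le_iff.1 hcon
  have hux : |(((a : ℚ) / (q : ℚ) : ℚ) : ℝ) - thX σ w| ≤ Real.exp (-(D0 * h * Real.log h)) := by
    rw [abs_sub_comm]
    push_cast
    exact hcx.trans hexp
  have hvy : |(((b : ℚ) / (q : ℚ) : ℚ) : ℝ) - thY σ w| ≤ Real.exp (-(D0 * h * Real.log h)) := by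
    rw [abs_sub_comm]
    push_cast
    exact hcy.trans hexp
  have hUI : UInt Q w ((a : ℚ) / q) ((b : ℚ) / q) := by
    have hq' : (q : ℚ) ≠ 0 := by exact_mod_cast hq0.ne'
    refine ⟨hQ0, ⟨(q * m0 : ℕ) * w.num, ?_⟩, ⟨(w.den * m0 : ℕ) * a, ?_⟩,
      ⟨(w.den * m0 : ℕ) * b, ?_⟩⟩
    · have h1 : w * (w.den : ℚ) = w.num := Rat.mul_den_eq_num w
      rw [hQ]
      push_cast
      rw [← h1]
      ring
    · rw [hQ]
      push_cast
      field_simp
    · rw [hQ]
      push_cast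
      field_simp
  have hDne : DET h σ w ((a : ℚ) / q) ((b : ℚ) / q) ≠ 0 :=
    hN2 h (by omega) hhp (ha0' h hhm) _ _ (norm_div_le hhq a) (norm_div_le hhq b)
  exact contra hh0 hUI hDne (hA2 h (by omega) _ _ hux hvy) (hP2 h (by omega) Q w _ _ hUI) hh1

end

end Pool.Agent.W216.GZ
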